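import Pool.Agent.Helper31.SH.TabA
import Pool.Agent.Helper25.SH.Rev

/-!
# Project RC, SHARP, cell engine: the table of the powers with the fast reversal of digits
-/

set_option autoImplicit false

open MeasureTheory Set Filter Topology

namespace Pool.Agent.Helper31.TabF

open Helper49.LT hiding sg
open Helper95.RC
open Pool.Agent.Helper99.RC
open Helper54.RC.Fast hiding ps
open Pool.Agent.Helper31.KcF
open Helper56.RC (fc)
open Helper25.SH.Dot (rl mks rr rl_eq rr_lt ls_rr pw2)

/-- reversal of `n` digits, `n <= 2 ^ mm` -/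
def fr (b mm n X : ℕ) : ℕ :=
  Nat.shiftRight (rl (Nat.succ b) mm (mks (Nat.succ b) mm 1) X) (Nat.mul (Nat.succ b) (Nat.sub (Nat.pow 2 mm) n))

theorem fr_eq (b mm n X : ℕ) (hn : n ≤ 2 ^ mm) (hX : X < (2 ^ (b + 1)) ^ n) : fr b mm n X = rvN b n X 0 := by
  have hB : 0 < 2 ^ (b + 1) := by positivity
  have hX2 : X < (2 ^ (b + 1)) ^ (2 ^ mm) := lt_of_lt_of_le hX (Nat.pow_le_pow_right hB hn)
  have hX3 : X < 2 ^ ((b + 1) * 2 ^ mm) := by rw [pw2]; exact hX2
  have e0 : fr b mm n X = (rr (b + 1) mm X) >>> ((b + 1) * (2 ^ mm - n)) := by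
    show (rl (b + 1) mm (mks (b + 1) mm 1) X) >>> ((b + 1) * (2 ^ mm - n)) = _
    rw [rl_eq _ _ _ (by omega) hX3]
  set Y := rr (b + 1) mm X with hY
  have hY1 : Y < (2 ^ (b + 1)) ^ (2 ^ mm) := by
    rw [← pw2]
    exact rr_lt _ _ _ hX3
  have hdY : ∀ k, k < 2 ^ mm → Helper96.SH.dz b k Y = Helper96.SH.dz b (2 ^ mm - 1 - k) X := by
    intro k hk
    have h1 := ls_rr b mm X hX3
    rw [← hY, Helper96.SH.ls_dz, Helper96.SH.ls_dz] at h1
    have h2 := congrArg (fun l => l[k]?) h1
    simp only [List.getElem?_map] at h2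
    rw [List.getElem?_range hk, List.getElem?_reverse (by simpa using hk)] at h2
    simp only [List.length_map, List.length_range, List.getElem?_map] at h2
    rw [List.getElem?_range (by omega)] at h2
    simpa using h2
  have hsh : Y >>> ((b + 1) * (2 ^ mm - n)) = Y / (2 ^ (b + 1)) ^ (2 ^ mm - n) := by
    rw [Nat.shiftRight_eq_div_pow, pow_mul]
  have hlt : Y / (2 ^ (b + 1)) ^ (2 ^ mm - n) < (2 ^ (b + 1)) ^ n := by
    rw [Nat.div_lt_iff_lt_mul (by positivity), ← pow_add]
    have : n + (2 ^ mm - n) = 2 ^ mm := by omega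
    rw [this]
    exact hY1
  have E1 := Helper96.SH.Enc_dz hlt
  have E2 := (Helper96.SH.Enc_dz hX).rev
  have key : ∀ k, k < n → Helper96.SH.dz b k (Y / (2 ^ (b + 1)) ^ (2 ^ mm - n)) = Helper96.SH.dz b (n - 1 - k) X := by
    intro k hk
    have h1 : Helper96.SH.dz b k (Y / (2 ^ (b + 1)) ^ (2 ^ mm - n)) = Helper96.SH.dz b (2 ^ mm - n + k) Y := by
      unfold Helper96.SH.dz
      congr 2
      rw [← div_mod_dg, ← div_mod_dg, Nat.div_div_eq_div_mul, ← pow_add]
    rw [h1, hdY _ (by omega)]
    congr 1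
    omega
  rw [e0, hsh]
  have v1 := E1.1
  have v2 := E2.1
  have : ((Y / (2 ^ (b + 1)) ^ (2 ^ mm - n) : ℕ) : ℤ) = ((rvN b n X 0 : ℕ) : ℤ) := by
    rw [v1, v2]
    refine Finset.sum_congr rfl fun k hk => ?_
    beta_reduce
    rw [key k (Finset.mem_range.1 hk)]
  exact_mod_cast this

/-- conjugate, fast -/
def cjG (b mm : ℕ) (z : FP) : FP :=
  ⟨z.N, fr b mm (len z.N) z.x, Nat.sub (Nat.mul 2 (of b (len z.N))) (fr b mm (len z.N) z.y)⟩

theorem cjG_eq {b mm : ℕ} {z : FP} (hw : wf b z = true) (hl : len z.N ≤ 2 ^ mm) : cjG b mm z = cjF b z := by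
  obtain ⟨w1, w2⟩ := (wf_iff b z).1 hw
  unfold cjG cjF
  rw [fr_eq b mm _ _ hl w1, fr_eq b mm _ _ hl w2]

/-- `-conj`, fast -/
def ngG (b mm : ℕ) (z : FP) : FP := negF b (cjG b mm z)
/-- its check -/
def okNgG (b r mm : ℕ) (z : FP) : Bool := okn b r z && okn b r (cjG b mm z)

def okPosG (b s r e mm : ℕ) : ℕ → List PF → Bool
  | _, [] => true
  | q, p :: l => bif okScl b r s q p then
      (bif Nat.ble (len (sclF b s q p).z.N) (Nat.pow 2 mm) then
        (bif okNgG b r mm (sclF b s q p).z then (bif Nat.ble (sclF b s q p).er e then okPosG b s r e mm (Nat.succ q) l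
          else false) else false) else false) else false

def symG (b mm : ℕ) : List PF → List FP → List FP
  | [], acc => acc
  | p :: l, acc => symG b mm l (ngG b mm p.z :: acc)

theorem symG_eq (b mm : ℕ) (z : FP) : ∀ (l : List PF) (acc : List FP),
    (∀ p ∈ l, wf b p.z = true ∧ len p.z.N ≤ 2 ^ mm) → symG b mm l acc = symL b z l acc
  | [], _, _ => rfl
  | p :: l, acc, h => by
    obtain ⟨h1, h2⟩ := h p (by simp)
    show symG b mm l (negF b (cjG b mm p.z) :: acc) = symL b z l (negF b (cjF b p.z) :: acc)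
    rw [cjG_eq h1 h2]
    exact symG_eq b mm z l _ fun p' hp' => h p' (by simp [hp'])

theorem okPosG_sound (b s r e mm : ℕ) (hs : s + 1 ≤ b) : ∀ (l : List PF) (q : ℕ), okPosG b s r e mm q l = true →
    okPos b s r e q l = true ∧ ∀ p ∈ posL b s q l, wf b p.z = true ∧ len p.z.N ≤ 2 ^ mm
  | [], q, _ => by simp [okPos, posL]
  | a :: l, q, ho => by
    unfold okPosG at ho
    cases h1 : okScl b r s q a with
    | false => rw [h1] at ho; simp at ho
    | true =>
      cases h2 : Nat.ble (len (sclF b s q a).z.N) (Nat.pow 2 mm) with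
      | false => rw [h1, h2] at ho; simp at ho
      | true =>
        cases h3 : okNgG b r mm (sclF b s q a).z with
        | false => rw [h1, h2, h3] at ho; simp at ho
        | true =>
          cases h4 : Nat.ble (sclF b s q a).er e with
          | false => rw [h1, h2, h3, h4] at ho; simp at ho
          | true =>
            rw [h1, h2, h3, h4] at ho
            have ho : okPosG b s r e mm (q + 1) l = true := ho
            obtain ⟨i1, i2⟩ := okPosG_sound b s r e mm hs l (q + 1) ho
            have hl : len (sclF b s q a).z.N ≤ 2 ^ mm := Nat.le_of_ble_eq_true h2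
            have hw : wf b (sclF b s q a).z = true := (flF_sound b (s + 1) hs _).1
            have h3' : okNg b r (sclF b s q a).z = true := by
              unfold okNgG at h3
              unfold okNg
              rw [cjG_eq hw hl] at h3
              exact h3
            refine ⟨?_, ?_⟩
            · unfold okPos
              rw [h1, h3', h4]
              exact i1
            · intro p hp
              have hp : p ∈ sclF b s q a :: posL b s (q + 1) l := hp
              rcases List.mem_cons.1 hp with h5 | h5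
              · rw [h5]
                exact ⟨hw, hl⟩
              · exact i2 p h5

/-- the list of all the powers, fast -/
def getG (P : KQ) (K : KD) (mm : ℕ) : List FP :=
  symG P.b mm (getP P K) (zeF P.b P.s K :: zL (getP P K))

def okL3 (P : KQ) (K : KD) (mm e Q : ℕ) (l : List PF) : Bool :=
  okPosG P.b P.s P.r e mm 1 l && (Nat.beq l.length Q && rng P.b [d2Q P.s K])

/-- the check of the table, fast -/
def okTab3 (P : KQ) (K : KD) (mm e Q : ℕ) : Bool :=
  okQ P K && (Nat.ble 1 e && Nat.ble (Nat.succ P.s) P.b) &&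
    match tabQ P K with
    | some res => okL3 P K mm e Q (res.reverse.drop 1)
    | none => false

theorem okTab3_sound {P : KQ} {K : KD} {mm e Q : ℕ} (ho : okTab3 P K mm e Q = true) :
    okTab2 P K e Q = true ∧ getG P K mm = getF P K := by
  unfold okTab3 at ho
  rw [Bool.and_eq_true, Bool.and_eq_true, Bool.and_eq_true] at ho
  obtain ⟨⟨h1, h2, h7⟩, h3⟩ := ho
  have h7' : P.s + 1 ≤ P.b := Nat.le_of_ble_eq_true h7
  cases hres : tabQ P K with
  | none => rw [hres] at h3; simp at h3
  | some res =>
    rw [hres] at h3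
    have h3 : okL3 P K mm e Q (res.reverse.drop 1) = true := h3
    unfold okL3 at h3
    rw [Bool.and_eq_true] at h3
    obtain ⟨h4, h5⟩ := h3
    obtain ⟨k1, k2⟩ := okPosG_sound P.b P.s P.r e mm h7' _ 1 h4
    refine ⟨?_, ?_⟩
    · unfold okTab2
      rw [hres, h1, h2, h7]
      show okL2 P K e Q (res.reverse.drop 1) = true
      unfold okL2
      rw [k1, h5]
      rfl
    · have h6 : getP P K = posL P.b P.s 1 (res.reverse.drop 1) := by
        unfold getP
        rw [hres]
      unfold getG getF allL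
      rw [h6]
      exact symG_eq P.b mm (zeF P.b P.s K) _ _ k2

end Pool.Agent.Helper31.TabF
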