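import Pool.Agent.Helper31.NS.KFast
import Pool.Agent.Helper85.NS.Rows
import Pool.Agent.Helper31.RC.Bes

/-!
# Project RC, SHARP, cell engine: the two kernel tables of the rows of `gA`, `gB`
-/

set_option autoImplicit false

open MeasureTheory Set Filter Topology

namespace Pool.Agent.Helper31.TabF

open Helper49.LT hiding sg
open Helper95.RC
open Pool.Agent.Helper99.RC
open Helper54.RC.Fast hiding ps
open Pool.Agent.Helper31.KcF
open Helper56.RC (fc)

/-- padding: window `n` to window `V` -/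
def pd (b V n X : ℕ) : ℕ :=
  Nat.add (of b (Nat.sub V n)) (Nat.mul (Nat.pow (Nat.pow 2 (Nat.succ b)) (Nat.sub V n))
    (Nat.add X (Nat.mul (Nat.pow (Nat.pow 2 (Nat.succ b)) (len n)) (of b (Nat.sub V n)))))
/-- both components, window `V`, in one number, `H = (2 ^ (b + 1)) ^ P` -/
def cb (b V H : ℕ) (z : FP) : ℕ := Nat.add (pd b V z.N z.x) (Nat.mul H (pd b V z.N z.y))
def cbL (b V H : ℕ) : List FP → List ℕ
  | [] => []
  | z :: l => cb b V H z :: cbL b V H l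
/-- every third element -/
def th3 : List ℕ → List ℕ
  | a :: _ :: _ :: l => a :: th3 l
  | [a, _] => [a]
  | [a] => [a]
  | [] => []

/-- the walk: one digit of each number (both components), two zero digits between them -/
def wq (w mk Z B3 : ℕ) : ℕ → ℕ → List ℕ → ℕ
  | 0, _, _ => 0
  | _ + 1, _, [] => 0
  | c + 1, sh, a :: l => Nat.add (Nat.add (Nat.land (Nat.shiftRight a sh) mk) Z)
      (Nat.mul B3 (wq w mk Z B3 c (Nat.add sh w) l))

/-- the row from the walk -/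
def spl (O B0 H M N R : ℕ) : FP :=
  ⟨N, Nat.mod (Nat.add O (Nat.mul B0 (Nat.mod R H))) M, Nat.mod (Nat.add O (Nat.mul B0 (Nat.div R H))) M⟩

/-- the rows of one class -/
def rwC (w mk Z B3 O B0 H M N c : ℕ) : ℕ → ℕ → List ℕ → List FP
  | 0, _, _ => []
  | k + 1, sh, L => spl O B0 H M N (wq w mk Z B3 c sh L) :: rwC w mk Z B3 O B0 H M N c k (Nat.sub sh w) L.tail

/-- class `c` of the rows `m = 3 t + c - W`, columns `k - (N - 1)`, `k < 2 N + 1` -/
def rowC (b V P W N Q : ℕ) (G : List ℕ) (c : ℕ) : List FP :=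
  rwC (Nat.succ b) (Nat.mul (Nat.sub (Nat.pow 2 (Nat.succ b)) 1) (Nat.succ (Nat.pow (Nat.pow 2 (Nat.succ b)) P)))
    (Nat.mul (Nat.add (Nat.mul (Nat.pow 2 b) (Nat.pow 2 (Nat.succ b)))
      (Nat.mul (Nat.pow 2 b) (Nat.pow (Nat.pow 2 (Nat.succ b)) 2))) (Nat.succ (Nat.pow (Nat.pow 2 (Nat.succ b)) P)))
    (Nat.pow (Nat.pow 2 (Nat.succ b)) 3)
    (of b (Nat.mod (Nat.add (Nat.add (Nat.sub N 1) c) (Nat.mul 2 W)) 3))
    (Nat.pow (Nat.pow 2 (Nat.succ b)) (Nat.mod (Nat.add (Nat.add (Nat.sub N 1) c) (Nat.mul 2 W)) 3))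
    (Nat.pow (Nat.pow 2 (Nat.succ b)) P) (Nat.pow (Nat.pow 2 (Nat.succ b)) (len N)) N
    (Nat.succ (Nat.div (Nat.sub (Nat.mul 2 N) (Nat.mod (Nat.add (Nat.add (Nat.sub N 1) c) (Nat.mul 2 W)) 3)) 3))
    (Nat.succ (Nat.div (Nat.sub (Nat.mul 2 W) c) 3))
    (Nat.mul (Nat.succ b) (Nat.div (Nat.sub (Nat.add (Nat.add (Nat.mul 3 V)
      (Nat.mod (Nat.add (Nat.add (Nat.sub N 1) c) (Nat.mul 2 W)) 3)) W) (Nat.add (Nat.sub N 1) c)) 3))
    (th3 (G.drop (Nat.sub (Nat.add (Nat.add c (Nat.mod (Nat.add (Nat.add (Nat.sub N 1) c) (Nat.mul 2 W)) 3)) Q)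
      (Nat.add W (Nat.sub N 1)))))

/-- the table: row `k` -/
def tb (R0 R1 R2 : List FP) (k : ℕ) : FP :=
  match Nat.mod k 3 with
  | 0 => ntF R0 (Nat.div k 3)
  | 1 => ntF R1 (Nat.div k 3)
  | _ => ntF R2 (Nat.div k 3)

/-! ## The walk -/

theorem land_mask (b P U : ℕ) (hP : 0 < P) :
    U &&& ((2 ^ (b + 1) - 1) * ((2 ^ (b + 1)) ^ P + 1)) =
      U % 2 ^ (b + 1) + (2 ^ (b + 1)) ^ P * (U / (2 ^ (b + 1)) ^ P % 2 ^ (b + 1)) := by
  have hB : 0 < 2 ^ (b + 1) := by positivity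
  have hle : 2 ^ (b + 1) ≤ (2 ^ (b + 1)) ^ P := Nat.le_self_pow hP.ne' _
  have e1 : (2 ^ (b + 1) - 1) * ((2 ^ (b + 1)) ^ P + 1) =
      (2 ^ (b + 1) - 1) + 2 ^ ((b + 1) * P) * (2 ^ (b + 1) - 1) := by
    rw [pow_mul]; ring
  have e2 : U = U % 2 ^ ((b + 1) * P) + 2 ^ ((b + 1) * P) * (U / 2 ^ ((b + 1) * P)) := by
    rw [Nat.mod_add_div]
  have h2 : 2 ^ (b + 1) - 1 < 2 ^ ((b + 1) * P) := by
    rw [pow_mul]
    omega
  rw [e1]
  conv_lhs => rw [e2]
  rw [land_cons (Nat.mod_lt _ (by positivity)) h2, Nat.and_two_pow_sub_one_eq_mod, Nat.and_two_pow_sub_one_eq_mod,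
    pow_mul, Nat.mod_mod_of_dvd _ (dvd_pow_self _ hP.ne')]

/-- the digits of the walk -/
def DG (b off p : ℕ) (L : List ℕ) (k : ℕ) : ℕ :=
  if k % 3 = 0 then (L.getD (k / 3) 0) / (2 ^ (b + 1)) ^ (off + (p + k / 3)) % 2 ^ (b + 1) else 2 ^ b

theorem DG_lt (b off p : ℕ) (L : List ℕ) (k : ℕ) : DG b off p L k < 2 ^ (b + 1) := by
  unfold DG
  split_ifs
  · exact Nat.mod_lt _ (by positivity)
  · exact Nat.pow_lt_pow_right (by norm_num) (by omega)

theorem DG_sum (b off p : ℕ) (a : ℕ) (l : List ℕ) (c : ℕ) :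
    ∑ k ∈ Finset.range (3 * (c + 1)), DG b off p (a :: l) k * (2 ^ (b + 1)) ^ k =
      a / (2 ^ (b + 1)) ^ (off + p) % 2 ^ (b + 1) + (2 ^ b * 2 ^ (b + 1) + 2 ^ b * (2 ^ (b + 1)) ^ 2) +
        (2 ^ (b + 1)) ^ 3 * ∑ k ∈ Finset.range (3 * c), DG b off (p + 1) l k * (2 ^ (b + 1)) ^ k := by
  have e3 : 3 * (c + 1) = 3 * c + 1 + 1 + 1 := by ring
  rw [e3, Finset.sum_range_succ', Finset.sum_range_succ', Finset.sum_range_succ', Finset.mul_sum]
  have d0 : DG b off p (a :: l) 0 = a / (2 ^ (b + 1)) ^ (off + p) % 2 ^ (b + 1) := by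
    unfold DG
    rw [if_pos rfl]
    simp
  have d1 : DG b off p (a :: l) (0 + 1) = 2 ^ b := by
    unfold DG
    rw [if_neg (by norm_num)]
  have d2 : DG b off p (a :: l) (0 + 1 + 1) = 2 ^ b := by
    unfold DG
    rw [if_neg (by norm_num)]
  have d3 : ∀ k, DG b off p (a :: l) (k + 1 + 1 + 1) = DG b off (p + 1) l k := by
    intro k
    unfold DG
    have h1 : (k + 1 + 1 + 1) % 3 = k % 3 := by omega
    have h2 : (k + 1 + 1 + 1) / 3 = k / 3 + 1 := by omega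
    rw [h1, h2, List.getD_cons_succ]
    have h5 : off + (p + (k / 3 + 1)) = off + (p + 1 + k / 3) := by ring
    rw [h5]
  rw [d0, d1, d2]
  simp_rw [d3]
  have e4 : ∀ k, DG b off (p + 1) l k * (2 ^ (b + 1)) ^ (k + 1 + 1 + 1) =
      (2 ^ (b + 1)) ^ 3 * (DG b off (p + 1) l k * (2 ^ (b + 1)) ^ k) := by
    intro k
    ring
  simp_rw [e4]
  ring

theorem wq_eq (b P : ℕ) (hP : 0 < P) : ∀ (c p : ℕ) (L : List ℕ), c ≤ L.length →
    wq (b + 1) ((2 ^ (b + 1) - 1) * ((2 ^ (b + 1)) ^ P + 1))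
      ((2 ^ b * 2 ^ (b + 1) + 2 ^ b * (2 ^ (b + 1)) ^ 2) * ((2 ^ (b + 1)) ^ P + 1)) ((2 ^ (b + 1)) ^ 3) c ((b + 1) * p) L =
      ∑ k ∈ Finset.range (3 * c), DG b 0 p L k * (2 ^ (b + 1)) ^ k +
        (2 ^ (b + 1)) ^ P * ∑ k ∈ Finset.range (3 * c), DG b P p L k * (2 ^ (b + 1)) ^ k
  | 0, p, L, _ => by simp [wq]
  | c + 1, p, [], h => by simp at h
  | c + 1, p, a :: l, h => by
    have ih := wq_eq b P hP c (p + 1) l (by simpa using h)
    show ((a >>> ((b + 1) * p)) &&& ((2 ^ (b + 1) - 1) * ((2 ^ (b + 1)) ^ P + 1))) +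
      (2 ^ b * 2 ^ (b + 1) + 2 ^ b * (2 ^ (b + 1)) ^ 2) * ((2 ^ (b + 1)) ^ P + 1) +
      (2 ^ (b + 1)) ^ 3 * wq (b + 1) _ _ _ c ((b + 1) * p + (b + 1)) l = _
    have e1 : (b + 1) * p + (b + 1) = (b + 1) * (p + 1) := by ring
    rw [e1, ih, DG_sum, DG_sum, land_mask b P _ hP, Nat.shiftRight_eq_div_pow, pow_mul, Nat.div_div_eq_div_mul,
      ← pow_add, zero_add, Nat.add_comm P p]
    ring

/-! ## A row -/

theorem split_HS {B P SX SY : ℕ} (h : SX < B ^ P) : (SX + B ^ P * SY) % B ^ P = SX ∧ (SX + B ^ P * SY) / B ^ P = SY := by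
  have hp : 0 < B ^ P := by omega
  constructor
  · rw [Nat.add_mul_mod_self_left, Nat.mod_eq_of_lt h]
  · rw [Nat.add_mul_div_left _ _ hp, Nat.div_eq_of_lt h, zero_add]

theorem gs_sum' (B : ℕ) (n : ℕ) : gs B n = ∑ j ∈ Finset.range n, B ^ j := by
  induction n with
  | zero => simp [gs]
  | succ n ih =>
    rw [Finset.sum_range_succ']
    show 1 + B * gs B n = _
    rw [ih, Finset.mul_sum, pow_zero, add_comm]
    congr 1
    refine Finset.sum_congr rfl fun j _ => ?_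
    rw [pow_succ]
    ring

/-- one packed component -/
theorem comp_dg (b k0 c n : ℕ) (D : ℕ → ℕ) (hD : ∀ k, D k < 2 ^ (b + 1)) (hn : n ≤ k0 + 3 * c) :
    (of b k0 + (2 ^ (b + 1)) ^ k0 * ∑ k ∈ Finset.range (3 * c), D k * (2 ^ (b + 1)) ^ k) % (2 ^ (b + 1)) ^ n
        < (2 ^ (b + 1)) ^ n ∧
      ∀ k, k < n → dg b k ((of b k0 + (2 ^ (b + 1)) ^ k0 * ∑ k ∈ Finset.range (3 * c), D k * (2 ^ (b + 1)) ^ k) %
        (2 ^ (b + 1)) ^ n) = if k < k0 then 2 ^ b else D (k - k0) := by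
  refine ⟨Nat.mod_lt _ (by positivity), fun k hk => ?_⟩
  set E : ℕ → ℕ := fun k => if k < k0 then 2 ^ b else D (k - k0) with hE
  have hElt : ∀ k, E k < 2 ^ (b + 1) := by
    intro k
    simp only [hE]
    split_ifs
    · exact Nat.pow_lt_pow_right (by norm_num) (by omega)
    · exact hD _
  have e1 : of b k0 + (2 ^ (b + 1)) ^ k0 * ∑ k ∈ Finset.range (3 * c), D k * (2 ^ (b + 1)) ^ k =
      ∑ j ∈ Finset.range (k0 + 3 * c), E j * (2 ^ (b + 1)) ^ j := by
    rw [Finset.sum_range_add, Finset.mul_sum]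
    congr 1
    · rw [of_eq, gs_sum', Finset.mul_sum]
      refine Finset.sum_congr rfl fun j hj => ?_
      simp only [hE]
      rw [if_pos (Finset.mem_range.1 hj)]
    · refine Finset.sum_congr rfl fun j _ => ?_
      simp only [hE]
      rw [if_neg (by omega), Nat.add_sub_cancel_left, pow_add]
      ring
  rw [e1, sumD_dg b E hElt (k0 + 3 * c) n k hk hn]

theorem sumDG_lt (b off p c P : ℕ) (L : List ℕ) (h : 3 * c ≤ P) :
    ∑ k ∈ Finset.range (3 * c), DG b off p L k * (2 ^ (b + 1)) ^ k < (2 ^ (b + 1)) ^ P :=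
  lt_of_lt_of_le (sumD_lt b _ (DG_lt b off p L) (3 * c)) (Nat.pow_le_pow_right (by positivity) h)

/-- **the digits of a row** -/
theorem spl_dg (b P N k0 c p : ℕ) (L : List ℕ) (hP : 0 < P) (hc : c ≤ L.length) (h3 : 3 * c ≤ P)
    (hn : len N ≤ k0 + 3 * c) (z : FP) (hz : z = spl (of b k0) ((2 ^ (b + 1)) ^ k0) ((2 ^ (b + 1)) ^ P)
      ((2 ^ (b + 1)) ^ (len N)) N
      (wq (b + 1) ((2 ^ (b + 1) - 1) * ((2 ^ (b + 1)) ^ P + 1))
      ((2 ^ b * 2 ^ (b + 1) + 2 ^ b * (2 ^ (b + 1)) ^ 2) * ((2 ^ (b + 1)) ^ P + 1)) ((2 ^ (b + 1)) ^ 3) c ((b + 1) * p) L)) :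
    (z.x < (2 ^ (b + 1)) ^ (len N) ∧ z.y < (2 ^ (b + 1)) ^ (len N)) ∧
      ∀ k, k < len N → dg b k z.x = (if k < k0 then 2 ^ b else DG b 0 p L (k - k0)) ∧
        dg b k z.y = (if k < k0 then 2 ^ b else DG b P p L (k - k0)) := by
  rw [wq_eq b P hP c p L hc] at hz
  obtain ⟨s1, s2⟩ := split_HS (SY := ∑ k ∈ Finset.range (3 * c), DG b P p L k * (2 ^ (b + 1)) ^ k)
    (sumDG_lt b 0 p c P L h3)
  set R := ∑ k ∈ Finset.range (3 * c), DG b 0 p L k * (2 ^ (b + 1)) ^ k +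
        (2 ^ (b + 1)) ^ P * ∑ k ∈ Finset.range (3 * c), DG b P p L k * (2 ^ (b + 1)) ^ k with hR
  have zx : z.x = (of b k0 + (2 ^ (b + 1)) ^ k0 * (R % (2 ^ (b + 1)) ^ P)) % (2 ^ (b + 1)) ^ (len N) := by rw [hz]; rfl
  have zy : z.y = (of b k0 + (2 ^ (b + 1)) ^ k0 * (R / (2 ^ (b + 1)) ^ P)) % (2 ^ (b + 1)) ^ (len N) := by rw [hz]; rfl
  rw [s1] at zx
  rw [s2] at zy
  obtain ⟨x1, x2⟩ := comp_dg b k0 c (len N) _ (DG_lt b 0 p L) hn
  obtain ⟨y1, y2⟩ := comp_dg b k0 c (len N) _ (DG_lt b P p L) hn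
  rw [← zx] at x1 x2
  rw [← zy] at y1 y2
  exact ⟨⟨x1, y1⟩, fun k hk => ⟨x2 k hk, y2 k hk⟩⟩

/-! ## The lists -/

theorem ntF_rwC (w mk Z B3 O B0 H M N c : ℕ) : ∀ (k p t : ℕ) (L : List ℕ), t < k → t ≤ p →
    ntF (rwC w mk Z B3 O B0 H M N c k (w * p) L) t =
      spl O B0 H M N (wq w mk Z B3 c (w * (p - t)) (L.drop t))
  | 0, p, t, L, h, _ => absurd h (by omega)
  | k + 1, p, 0, L, _, _ => by
    show spl O B0 H M N (wq w mk Z B3 c (w * p) L) = _
    simp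
  | k + 1, p, t + 1, L, h, h2 => by
    show ntF (rwC w mk Z B3 O B0 H M N c k (w * p - w) L.tail) t = _
    have e : w * p - w = w * (p - 1) := by
      rw [Nat.mul_sub, mul_one]
    rw [e, ntF_rwC w mk Z B3 O B0 H M N c k (p - 1) t L.tail (by omega) (by omega)]
    have e2 : p - 1 - t = p - (t + 1) := by omega
    rw [e2, List.drop_tail]

theorem th3_getD : ∀ (L : List ℕ) (t : ℕ), (th3 L).getD t 0 = L.getD (3 * t) 0
  | [], t => by simp [th3]
  | [a], 0 => by simp [th3]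
  | [a], t + 1 => by
    have e : 3 * (t + 1) = 3 * t + 2 + 1 := by ring
    rw [e]
    simp [th3]
  | [a, c], 0 => by simp [th3]
  | [a, c], t + 1 => by
    have e : 3 * (t + 1) = 3 * t + 1 + 1 + 1 := by ring
    rw [e]
    simp [th3]
  | a :: c :: d :: l, 0 => by simp [th3]
  | a :: c :: d :: l, t + 1 => by
    have e : 3 * (t + 1) = 3 * t + 1 + 1 + 1 := by ring
    rw [e]
    show (a :: th3 l).getD (t + 1) 0 = _
    rw [List.getD_cons_succ, th3_getD l t, List.getD_cons_succ, List.getD_cons_succ, List.getD_cons_succ]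

theorem th3_length : ∀ (L : List ℕ), (th3 L).length = (L.length + 2) / 3
  | [] => by simp [th3]
  | [a] => by simp [th3]
  | [a, c] => by simp [th3]
  | a :: c :: d :: l => by
    show (th3 l).length + 1 = (l.length + 1 + 1 + 1 + 2) / 3
    rw [th3_length l]
    omega

theorem cbL_length (b V H : ℕ) : ∀ F : List FP, (cbL b V H F).length = F.length
  | [] => rfl
  | z :: l => by
    show (cbL b V H l).length + 1 = l.length + 1
    rw [cbL_length b V H l]

theorem cbL_getD (b V H : ℕ) : ∀ (F : List FP) (i : ℕ), i < F.length → (cbL b V H F).getD i 0 = cb b V H (ntF F i)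
  | [], i, h => by simp at h
  | z :: l, 0, _ => rfl
  | z :: l, i + 1, h => by
    show (cb b V H z :: cbL b V H l).getD (i + 1) 0 = _
    rw [List.getD_cons_succ, cbL_getD b V H l i (by simpa using h)]
    rfl

theorem getD_drop (L : List ℕ) (a i : ℕ) : (L.drop a).getD i 0 = L.getD (a + i) 0 := by
  rw [List.getD_eq_getElem?_getD, List.getD_eq_getElem?_getD, List.getElem?_drop]

/-! ## The padded polynomial -/

theorem mod_digit (b X n : ℕ) (hX : X < (2 ^ (b + 1)) ^ n) :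
    X = ∑ j ∈ Finset.range n, (dg b j X) * (2 ^ (b + 1)) ^ j := by
  have h := (Helper96.SH.Enc_dz hX).1
  have h2 : (X : ℤ) = ((∑ j ∈ Finset.range n, (dg b j X) * (2 ^ (b + 1)) ^ j : ℕ) : ℤ) := by
    rw [h]
    push_cast
    refine Finset.sum_congr rfl fun j _ => ?_
    unfold Helper96.SH.dz
    ring
  exact_mod_cast h2

/-- the digits of the padded number -/
def pdg (b V n X k : ℕ) : ℕ :=
  if k < V - n then 2 ^ b else if k < V - n + len n then dg b (k - (V - n)) X else 2 ^ b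

theorem pdg_lt (b V n X k : ℕ) : pdg b V n X k < 2 ^ (b + 1) := by
  have h1 : 2 ^ b < 2 ^ (b + 1) := Nat.pow_lt_pow_right (by norm_num) (by omega)
  unfold pdg
  split_ifs
  · exact h1
  · exact Nat.mod_lt _ (Nat.two_pow_pos _)
  · exact h1

theorem pd_sum (b V n X : ℕ) (hn : n ≤ V) (hX : X < (2 ^ (b + 1)) ^ (len n)) :
    pd b V n X = ∑ k ∈ Finset.range (len V), pdg b V n X k * (2 ^ (b + 1)) ^ k := by
  have e0 : len V = (V - n) + (len n + (V - n)) := by rw [len_eq, len_eq]; omega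
  rw [e0, Finset.sum_range_add, Finset.sum_range_add]
  show of b (V - n) + (2 ^ (b + 1)) ^ (V - n) * (X + (2 ^ (b + 1)) ^ (len n) * of b (V - n)) = _
  have hof : ∀ m, of b m = ∑ j ∈ Finset.range m, 2 ^ b * (2 ^ (b + 1)) ^ j := by
    intro m
    rw [of_eq, gs_sum', Finset.mul_sum]
  have s1 : ∑ k ∈ Finset.range (V - n), pdg b V n X k * (2 ^ (b + 1)) ^ k = of b (V - n) := by
    rw [hof]
    refine Finset.sum_congr rfl fun j hj => ?_
    unfold pdg
    rw [if_pos (Finset.mem_range.1 hj)]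
  have s2 : ∑ k ∈ Finset.range (len n), pdg b V n X (V - n + k) * (2 ^ (b + 1)) ^ (V - n + k) =
      (2 ^ (b + 1)) ^ (V - n) * X := by
    conv_rhs => rw [mod_digit b X (len n) hX]
    rw [Finset.mul_sum]
    refine Finset.sum_congr rfl fun j hj => ?_
    have hj := Finset.mem_range.1 hj
    unfold pdg
    rw [if_neg (by omega), if_pos (by omega), Nat.add_sub_cancel_left, pow_add]
    ring
  have s3 : ∑ k ∈ Finset.range (V - n), pdg b V n X (V - n + (len n + k)) * (2 ^ (b + 1)) ^ (V - n + (len n + k)) =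
      (2 ^ (b + 1)) ^ (V - n) * ((2 ^ (b + 1)) ^ (len n) * of b (V - n)) := by
    rw [hof, Finset.mul_sum, Finset.mul_sum]
    refine Finset.sum_congr rfl fun j _ => ?_
    unfold pdg
    rw [if_neg (by omega), if_neg (by omega), pow_add, pow_add]
    ring
  rw [s1, s2, s3]
  ring

theorem div_mod_dg (b k X : ℕ) : X / (2 ^ (b + 1)) ^ k % 2 ^ (b + 1) = dg b k X := by
  show _ = X >>> ((b + 1) * k) % 2 ^ (b + 1)
  rw [Nat.shiftRight_eq_div_pow, pow_mul]

theorem pd_dg (b V n X k : ℕ) (hn : n ≤ V) (hX : X < (2 ^ (b + 1)) ^ (len n)) (hk : k < len V) :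
    pd b V n X / (2 ^ (b + 1)) ^ k % 2 ^ (b + 1) = dig b n X k V := by
  have h1 := sumD_dg b _ (pdg_lt b V n X) (len V) (len V) k hk le_rfl
  rw [← pd_sum b V n X hn hX] at h1
  have hlt : pd b V n X < (2 ^ (b + 1)) ^ (len V) := by
    rw [pd_sum b V n X hn hX]
    exact sumD_lt b _ (pdg_lt b V n X) _
  rw [Nat.mod_eq_of_lt hlt] at h1
  rw [div_mod_dg, h1]
  unfold pdg dig
  have hk' : k < 2 * V + 1 := by rw [len_eq] at hk; exact hk
  have hln : len n = 2 * n + 1 := rfl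
  by_cases c1 : k < V - n
  · rw [if_pos c1]
    have : Nat.ble V (Nat.add n k) = false := by
      rw [Bool.eq_false_iff]
      intro h
      have : V ≤ n + k := Nat.le_of_ble_eq_true h
      omega
    rw [this]
    rfl
  · rw [if_neg c1]
    have t1 : Nat.ble V (Nat.add n k) = true := Nat.ble_eq_true_of_le (by
      show V ≤ n + k
      omega)
    rw [t1]
    simp only [cond_true]
    by_cases c2 : k < V - n + len n
    · rw [if_pos c2]
      have t2 : Nat.ble (Nat.sub (Nat.add n k) V) (Nat.mul 2 n) = true := Nat.ble_eq_true_of_le (by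
        show n + k - V ≤ 2 * n
        omega)
      rw [t2]
      simp only [cond_true]
      congr 1
      show k - (V - n) = n + k - V
      omega
    · rw [if_neg c2]
      have t2 : Nat.ble (Nat.sub (Nat.add n k) V) (Nat.mul 2 n) = false := by
        rw [Bool.eq_false_iff]
        intro h
        have : n + k - V ≤ 2 * n := Nat.le_of_ble_eq_true h
        omega
      rw [t2]
      rfl

theorem pd_lt (b V n X : ℕ) (hn : n ≤ V) (hX : X < (2 ^ (b + 1)) ^ (len n)) : pd b V n X < (2 ^ (b + 1)) ^ (len V) := by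
  rw [pd_sum b V n X hn hX]
  exact sumD_lt b _ (pdg_lt b V n X) _

/-- the digits of the combined number -/
theorem cb_dg (b V P : ℕ) (z : FP) (hn : z.N ≤ V) (hw : wf b z = true) (hV : len V ≤ P) {p : ℕ} (hp : p < len V) :
    cb b V ((2 ^ (b + 1)) ^ P) z / (2 ^ (b + 1)) ^ (0 + p) % 2 ^ (b + 1) = dig b z.N z.x p V ∧
      cb b V ((2 ^ (b + 1)) ^ P) z / (2 ^ (b + 1)) ^ (P + p) % 2 ^ (b + 1) = dig b z.N z.y p V := by
  obtain ⟨w1, w2⟩ := (wf_iff b z).1 hw
  have hB : 0 < 2 ^ (b + 1) := by positivity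
  have l1 := pd_lt b V z.N z.x hn w1
  have l1' : pd b V z.N z.x < (2 ^ (b + 1)) ^ P := lt_of_lt_of_le l1 (Nat.pow_le_pow_right hB hV)
  have e0 : cb b V ((2 ^ (b + 1)) ^ P) z = pd b V z.N z.x + (2 ^ (b + 1)) ^ P * pd b V z.N z.y := rfl
  constructor
  · rw [e0, zero_add]
    obtain ⟨r, hr⟩ : ∃ r, P = p + (r + 1) := ⟨P - p - 1, by omega⟩
    have e1 : (pd b V z.N z.x + (2 ^ (b + 1)) ^ P * pd b V z.N z.y) / (2 ^ (b + 1)) ^ p =
        pd b V z.N z.x / (2 ^ (b + 1)) ^ p + 2 ^ (b + 1) * ((2 ^ (b + 1)) ^ r * pd b V z.N z.y) := by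
      have : (2 ^ (b + 1)) ^ P * pd b V z.N z.y =
          (2 ^ (b + 1)) ^ p * (2 ^ (b + 1) * ((2 ^ (b + 1)) ^ r * pd b V z.N z.y)) := by
        rw [hr, pow_add, pow_succ]; ring
      rw [this, Nat.add_mul_div_left _ _ (by positivity)]
    rw [e1, Nat.add_mul_mod_self_left]
    exact pd_dg b V z.N z.x p hn w1 hp
  · rw [e0, pow_add (2 ^ (b + 1)) P p, ← Nat.div_div_eq_div_mul, (split_HS l1').2]
    exact pd_dg b V z.N z.y p hn w2 hp

/-! ## Coefficientwise tables -/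

/-- one digit as a complex number -/
noncomputable def cdg (b : ℕ) (z : FP) (u v : ℕ) : ℂ :=
  ((dig b z.N z.x u v : ℂ) - 2 ^ b) + Complex.I * ((dig b z.N z.y u v : ℂ) - 2 ^ b)

/-- the data of the table, coefficientwise errors -/
structure Tab3 (b s : ℕ) (K : KD) (e : ℕ) (F : List FP) (Q : ℕ) (ph : ℝ) : Prop where
  ln : F.length = 2 * Q + 1
  wf : ∀ q : ℤ, |q| ≤ (Q : ℤ) → wf b (ntF F (q + Q).toNat) = true
  er : ∀ q : ℤ, |q| ≤ (Q : ℤ) → ∀ u v : ℕ, ‖cdg b (ntF F (q + Q).toNat) u v -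
    (2 ^ s : ℂ) * fc (YY ((K.dn : ℝ) / K.D) ((K.kn : ℝ) / K.D) ph q) ((u : ℤ) - v)‖ ≤ e

theorem Tab2.to3 {b s : ℕ} {K : KD} {e : ℕ} {F : List FP} {Q : ℕ} {ph : ℝ} (T : Tab2 b s K e F Q ph)
    (hl : F.length = 2 * Q + 1) : Tab3 b s K e F Q ph := by
  refine ⟨hl, fun q hq => (T.ap q hq).1, fun q hq u v => ?_⟩
  have h1 := T.ap q hq
  obtain ⟨C, hC⟩ := YY_BM ((K.dn : ℝ) / K.D) ((K.kn : ℝ) / K.D) ph q
  have h2 : AP b s ⟨ntF F (q + Q).toNat, e⟩ (YY ((K.dn : ℝ) / K.D) ((K.kn : ℝ) / K.D) ph q) := h1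
  have h4 := Helper30.SH.coef_le hC h2 ((u : ℤ) - v)
  have h5 := g2_cf b (ntF F (q + Q).toNat) u v
  rw [dig_g2, dig_g2] at h5
  rw [h5] at h4
  have hs : (0 : ℝ) < 2 ^ s := by positivity
  unfold cdg
  set X := (((dig b (ntF F (q + Q).toNat).N (ntF F (q + Q).toNat).x u v : ℂ) - 2 ^ b) +
      Complex.I * ((dig b (ntF F (q + Q).toNat).N (ntF F (q + Q).toNat).y u v : ℂ) - 2 ^ b)) with hX
  set Y := fc (YY ((K.dn : ℝ) / K.D) ((K.kn : ℝ) / K.D) ph q) ((u : ℤ) - v) with hY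
  have h6 : (2 ^ s : ℂ) ≠ 0 := pow_ne_zero _ two_ne_zero
  have e1 : X - (2 ^ s : ℂ) * Y = -(2 ^ s : ℂ) * (Y - X / 2 ^ s) := by
    field_simp
    ring
  rw [e1, norm_mul, norm_neg, norm_pow, Complex.norm_ofNat]
  calc (2 : ℝ) ^ s * ‖Y - X / 2 ^ s‖ ≤ 2 ^ s * ((e : ℝ) / 2 ^ s) := by gcongr
    _ = e := by field_simp

/-- floor of all the polynomials -/
def flL (b t : ℕ) : List FP → List FP
  | [] => []
  | z :: l => flF b t z :: flL b t l

theorem flL_length (b t : ℕ) : ∀ F : List FP, (flL b t F).length = F.length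
  | [] => rfl
  | z :: l => by
    show (flL b t l).length + 1 = l.length + 1
    rw [flL_length b t l]

theorem ntF_flL (b t : ℕ) : ∀ (F : List FP) (i : ℕ), i < F.length → ntF (flL b t F) i = flF b t (ntF F i)
  | [], i, h => by simp at h
  | z :: l, 0, _ => rfl
  | z :: l, i + 1, h => ntF_flL b t l i (by simpa using h)

theorem dig_fl (b t N X u v : ℕ) (ht : t ≤ b) (hX : X < (2 ^ (b + 1)) ^ (len N)) :
    |((dig b N (fl b t (on b (len N)) X) u v : ℝ) - 2 ^ b) - ((dig b N X u v : ℝ) - 2 ^ b) / 2 ^ t| ≤ 1 := by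
  unfold dig
  have h0 : |(((Nat.pow 2 b : ℕ) : ℝ) - 2 ^ b) - (((Nat.pow 2 b : ℕ) : ℝ) - 2 ^ b) / 2 ^ t| ≤ 1 := by
    have : ((Nat.pow 2 b : ℕ) : ℝ) = 2 ^ b := by
      show (((2 ^ b : ℕ)) : ℝ) = 2 ^ b
      push_cast
      rfl
    rw [this]
    simp
  cases Nat.ble v (Nat.add N u) with
  | false => simpa only [cond_false] using h0
  | true =>
    simp only [cond_true]
    cases h : Nat.ble (Nat.sub (Nat.add N u) v) (Nat.mul 2 N) with
    | false => simpa only [cond_false] using h0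
    | true =>
      simp only [cond_true]
      have hk : Nat.sub (Nat.add N u) v ≤ 2 * N := Nat.le_of_ble_eq_true h
      set k := Nat.sub (Nat.add N u) v with hk'
      have hk2 : k < len N := by rw [len_eq]; omega
      have E := (Helper96.SH.Enc_dz hX).fl ht
      have d1 := E.digit hk2
      unfold Helper96.SH.dz at d1
      have d2 : ((dg b k (fl b t (on b (len N)) X) : ℝ) - 2 ^ b) = ((((dg b k X : ℤ) - 2 ^ b) / 2 ^ t : ℤ) : ℝ) := by
        have : (((dg b k (fl b t (on b (len N)) X) : ℤ) - 2 ^ b : ℤ) : ℝ) = ((((dg b k X : ℤ) - 2 ^ b) / 2 ^ t : ℤ) : ℝ) := by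
          rw [d1]
        push_cast at this
        push_cast
        exact this
      rw [d2]
      have h3 := Helper85.NS.ediv_le ((dg b k X : ℤ) - 2 ^ b) (show 0 < 2 ^ t by positivity)
      push_cast at h3 ⊢
      exact h3

theorem Tab3.floor {b s t : ℕ} {K : KD} {e : ℕ} {F : List FP} {Q : ℕ} {ph : ℝ} (T : Tab3 b (s + t) K e F Q ph)
    (ht : t ≤ b) : Tab3 b s K (e / 2 ^ t + 3) (flL b t F) Q ph := by
  refine ⟨by rw [flL_length, T.ln], fun q hq => ?_, fun q hq u v => ?_⟩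
  · have hi : (q + Q).toNat < F.length := by
      have := abs_le.1 hq
      rw [T.ln]; omega
    rw [ntF_flL b t F _ hi]
    exact (flF_sound b t ht _).1
  · have hi : (q + Q).toNat < F.length := by
      have := abs_le.1 hq
      rw [T.ln]; omega
    rw [ntF_flL b t F _ hi]
    have h1 := T.er q hq u v
    set z := ntF F (q + Q).toNat with hz
    obtain ⟨w1, w2⟩ := (wf_iff b z).1 (T.wf q hq)
    set Y := fc (YY ((K.dn : ℝ) / K.D) ((K.kn : ℝ) / K.D) ph q) ((u : ℤ) - v) with hY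
    have r1 := dig_fl b t z.N z.x u v ht w1
    have r2 := dig_fl b t z.N z.y u v ht w2
    set x := ((dig b z.N z.x u v : ℝ) - 2 ^ b) with hx
    set y := ((dig b z.N z.y u v : ℝ) - 2 ^ b) with hy
    set x' := ((dig b z.N (fl b t (on b (len z.N)) z.x) u v : ℝ) - 2 ^ b) with hx'
    set y' := ((dig b z.N (fl b t (on b (len z.N)) z.y) u v : ℝ) - 2 ^ b) with hy'
    have e1 : cdg b (flF b t z) u v = (x' : ℂ) + Complex.I * (y' : ℂ) := by
      rw [hx', hy']
      push_cast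
      rfl
    have e2 : cdg b z u v = (x : ℂ) + Complex.I * (y : ℂ) := by
      rw [hx, hy]
      push_cast
      rfl
    rw [e2] at h1
    rw [e1]
    have ht0 : (0 : ℝ) < 2 ^ t := by positivity
    have htc : (2 : ℂ) ^ t ≠ 0 := pow_ne_zero _ two_ne_zero
    have e3 : (x' : ℂ) + Complex.I * (y' : ℂ) - 2 ^ s * Y =
        (((x' - x / 2 ^ t : ℝ) : ℂ) + Complex.I * ((y' - y / 2 ^ t : ℝ) : ℂ)) +
          (((x : ℂ) + Complex.I * (y : ℂ)) - 2 ^ (s + t) * Y) / 2 ^ t := by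
      push_cast
      rw [pow_add]
      field_simp
      ring
    rw [e3]
    refine (norm_add_le _ _).trans ?_
    have n1 : ‖((x' - x / 2 ^ t : ℝ) : ℂ) + Complex.I * ((y' - y / 2 ^ t : ℝ) : ℂ)‖ ≤ 2 := by
      refine (norm_add_le _ _).trans ?_
      rw [norm_mul, Complex.norm_I, one_mul, Complex.norm_real, Complex.norm_real, Real.norm_eq_abs, Real.norm_eq_abs]
      linarith
    have n2 : ‖(((x : ℂ) + Complex.I * (y : ℂ)) - 2 ^ (s + t) * Y) / 2 ^ t‖ ≤ (e : ℝ) / 2 ^ t := by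
      rw [norm_div, norm_pow, Complex.norm_ofNat]
      exact div_le_div_of_nonneg_right h1 ht0.le
    have n3 : (e : ℝ) / 2 ^ t ≤ ((e / 2 ^ t : ℕ) : ℝ) + 1 := by
      rw [div_le_iff₀ ht0]
      have h4 := Nat.lt_div_mul_add (a := e) (b := 2 ^ t) (by positivity)
      have h5 : (e : ℝ) < ((e / 2 ^ t : ℕ) : ℝ) * ((2 ^ t : ℕ) : ℝ) + ((2 ^ t : ℕ) : ℝ) := by exact_mod_cast h4
      push_cast at h5 ⊢
      linarith
    have n4 : ((e / 2 ^ t + 3 : ℕ) : ℝ) = ((e / 2 ^ t : ℕ) : ℝ) + 3 := by rw [Nat.cast_add]; norm_num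
    rw [n4]
    linarith

/-- one entry from the list -/
theorem ent3 {b s : ℕ} {K : KD} {e : ℕ} {F : List FP} {Q : ℕ} {ph : ℝ} (T : Tab3 b s K e F Q ph) {m n : ℤ}
    (hQ : |m + n| ≤ (Q : ℤ)) (h3 : (3 : ℤ) ∣ n - m) {i u v : ℕ} (hi : (i : ℤ) = m + n + Q)
    (hj : (n - m) / 3 = (u : ℤ) - v) :
    ‖cdg b (ntF F i) u v - (2 ^ s : ℂ) * kk ((K.dn : ℝ) / K.D) ((K.kn : ℝ) / K.D) ph m n‖ ≤ e := by
  have h1 := T.er (m + n) hQ u v
  have hi' : (m + n + Q).toNat = i := by omega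
  rw [hi', ← hj, fc_YY _ _ _ rfl h3] at h1
  exact h1

/-- windows of the list -/
def okV (V : ℕ) : List FP → Bool
  | [] => true
  | z :: l => bif Nat.ble z.N V then okV V l else false

theorem okV_sound (V : ℕ) : ∀ (F : List FP) (i : ℕ), okV V F = true → i < F.length → (ntF F i).N ≤ V
  | [], i, _, h => by simp at h
  | z :: l, i, ho, h => by
    unfold okV at ho
    cases h1 : Nat.ble z.N V with
    | false => rw [h1] at ho; simp at ho
    | true =>
      rw [h1] at ho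
      cases i with
      | zero => exact Nat.le_of_ble_eq_true h1
      | succ i => exact okV_sound V l i ho (by simpa using h)

/-! ## The kernel of `gB`, `gA` -/

theorem kk_norm (d k ph : ℝ) (hd : |d| ≤ 2) (m n : ℤ) : ‖kk d k ph m n‖ ≤ 4 := by
  unfold kk
  split_ifs with h1 h2
  · rw [norm_mul, Complex.norm_I, mul_one, norm_neg, norm_mul, Complex.norm_ofNat, Complex.norm_real, Real.norm_eq_abs]
    linarith
  · simp
  · rw [norm_mul, Complex.norm_real, Real.norm_eq_abs, abs_div, abs_of_pos (by norm_num : (0 : ℝ) < 4)]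
    have h3 := CS_le d k ph m n
    have h4 : (1 : ℝ) ≤ |((m + n : ℤ) : ℝ)| := by
      rw [← Int.cast_abs]
      exact_mod_cast Int.one_le_abs h1
    have h5 : 4 / |((m + n : ℤ) : ℝ)| ≤ 4 := by
      rw [div_le_iff₀ (by linarith)]
      linarith
    calc 4 / |((m + n : ℤ) : ℝ)| * ‖CS d k ph m n‖ ≤ 4 * 1 :=
          mul_le_mul h5 h3 (norm_nonneg _) (by norm_num)
      _ = 4 := by norm_num

/-- `d -> - d` -/
theorem CS_negd (d k ph : ℝ) (m n : ℤ) :
    CS (-d) k ph m n = (-1) ^ (m - n).natAbs * (starRingEnd ℂ) (CS d k ph n m) := by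
  unfold CS
  by_cases h3 : (3 : ℤ) ∣ n - m
  · have h3' : (3 : ℤ) ∣ m - n := by omega
    rw [if_pos h3, if_pos h3']
    obtain ⟨j, hj⟩ := h3
    have e1 : (n - m) / 3 = j := by omega
    have e2 : (m - n) / 3 = -j := by omega
    rw [e1, e2, map_mul, map_mul, Complex.conj_ofReal, Helper31.Bes.J_neg_ord]
    have c1 : ∀ x : ℝ, (starRingEnd ℂ) (ee x) = ee (-x) := by
      intro x
      unfold ee
      rw [← Complex.exp_conj]
      congr 1
      simp
    rw [c1, c1]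
    have e3 : ((-1 : ℂ)) ^ (m - n).natAbs * (((-1 : ℝ) ^ j : ℝ) : ℂ) = 1 := by
      have e4 : (m - n).natAbs = 3 * j.natAbs := by omega
      rw [e4]
      rcases Int.natAbs_eq j with h | h
      · set a := j.natAbs
        rw [h, zpow_natCast]
        push_cast
        rw [← pow_add]
        have : 3 * a + a = 2 * (2 * a) := by ring
        rw [this, pow_mul]
        simp
      · set a := j.natAbs
        rw [h, zpow_neg, zpow_natCast]
        push_cast
        rw [pow_mul, ← inv_pow, ← mul_pow]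
        norm_num
    have e5 : -(((m + n : ℤ) : ℝ) * -d / 2) = - -(((n + m : ℤ) : ℝ) * d / 2) := by
      push_cast; ring
    have e6 : ((j : ℤ) : ℝ) * ph = -(((-j : ℤ) : ℝ) * ph) := by
      push_cast; ring
    have e7 : ((m + n : ℤ) : ℝ) * k / 2 = ((n + m : ℤ) : ℝ) * k / 2 := by
      push_cast; ring
    rw [e5, e6, e7]
    set A := ee (- -(((n + m : ℤ) : ℝ) * d / 2))
    set B := ee (-(((-j : ℤ) : ℝ) * ph))
    set y := ((n + m : ℤ) : ℝ) * k / 2
    push_cast at e3 ⊢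
    linear_combination (-(A * B * ((Helper31.Bes.J j y : ℝ) : ℂ))) * e3
  · have h3' : ¬ (3 : ℤ) ∣ m - n := by omega
    rw [if_neg h3, if_neg h3', map_zero, mul_zero]

theorem kk_negd (d k ph : ℝ) (m n : ℤ) :
    kk (-d) k ph m n = (-1) ^ (m - n).natAbs * (starRingEnd ℂ) (kk d k ph n m) := by
  unfold kk
  by_cases h : m + n = 0
  · rw [if_pos h, if_pos (show n + m = 0 by omega)]
    by_cases hm : m = 0
    · have hn : n = 0 := by omega
      have e2 : (starRingEnd ℂ) (2 : ℂ) = 2 := map_ofNat _ 2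
      rw [if_pos hm, if_pos hn, hm, hn, map_mul, map_neg, map_mul, Complex.conj_ofReal, Complex.conj_I, e2]
      push_cast
      simp
    · rw [if_neg hm, if_neg (show n ≠ 0 by omega)]
      simp
  · rw [if_neg h, if_neg (show ¬ n + m = 0 by omega), CS_negd, map_mul, Complex.conj_ofReal, add_comm n m]
    ring

theorem kaA_negd (d k ph : ℝ) (m n : ℤ) : Helper85.NS.kaA d k ph m n = Helper85.NS.kaB (-d) k ph m n := by
  unfold Helper85.NS.kaA Helper85.NS.kaB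
  rw [kk_negd]
end Pool.Agent.Helper31.TabF
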