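import Pool.Agent.Helper31.SH.Rev

/-!
# Project RC, SHARP, cell engine: the two kernel tables of the rows of `gA`, `gB`, main theorem
-/

set_option autoImplicit false

open MeasureTheory Set Filter Topology

namespace Pool.Agent.Helper31.TabF

open Helper49.LT hiding sg
open Helper95.RC
open Pool.Agent.Helper99.RC
open Helper54.RC.Fast hiding ps
open Pool.Agent.Helper31.KcF
open Helper56.RC (fc)

/-- the `k0` of a class -/
def kc (W N c : ℕ) : ℕ := Nat.mod (Nat.add (Nat.add (Nat.sub N 1) c) (Nat.mul 2 W)) 3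

/-- the sizes -/
def okS (b s V P W N Q e : ℕ) (K : KD) : Bool :=
  (Nat.ble 1 N && Nat.ble (Nat.add W (Nat.succ N)) Q) &&
    (Nat.ble (Nat.add W (Nat.succ N)) (Nat.mul 3 V) && (Nat.ble (len V) P && Nat.ble (Nat.add (len N) 3) P)) &&
    ((Nat.ble (Nat.mul 3 e) (Nat.pow 2 (Nat.succ s)) && Nat.ble 1 s) &&
      (Nat.ble (Nat.add (Nat.mul 2 s) 9) b && (Nat.ble 1 K.D && Nat.ble K.dn.natAbs (Nat.mul 2 K.D))))

/-- the three classes of rows -/
def cls (b V P W N Q : ℕ) (G : List ℕ) (k : ℕ) : FP :=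
  tb (rowC b V P W N Q G 0) (rowC b V P W N Q G 1) (rowC b V P W N Q G 2) k

theorem tb_eq (R : ℕ → List FP) (k : ℕ) : tb (R 0) (R 1) (R 2) k = ntF (R (k % 3)) (k / 3) := by
  unfold tb
  have e1 : Nat.mod k 3 = k % 3 := rfl
  have e2 : Nat.div k 3 = k / 3 := rfl
  rw [e1, e2]
  have h : k % 3 < 3 := Nat.mod_lt _ (by norm_num)
  interval_cases k % 3 <;> rfl

theorem idx1 {W N Q c k0 t : ℕ} (h1 : 1 ≤ N) (h2 : W + (N + 1) ≤ Q) (hc : c < 3) (hk : k0 < 3) (ht : 3 * t + c ≤ 2 * W) :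
    (2 * N - k0) / 3 + 1 ≤ (2 * Q + 1 - (c + k0 + Q - (W + (N - 1))) + 2) / 3 - t := by
  omega

theorem idx2 {W N Q c k0 t st j : ℕ} (h1 : 1 ≤ N) (h2 : W + (N + 1) ≤ Q) (ht : 3 * t + c ≤ 2 * W)
    (hj : j < 2 * N + 1) (hs : j = k0 + 3 * st) :
    (c + k0 + Q - (W + (N - 1))) + 3 * (t + st) < 2 * Q + 1 := by
  omega

theorem idx3 {W N Q c k0 t st j k' : ℕ} (h1 : 1 ≤ N) (h2 : W + (N + 1) ≤ Q) (ht : k' = 3 * t + c)
    (hs : j = k0 + 3 * st) :
    (((k' : ℤ) - W) + ((j : ℤ) - N + 1)) + Q = (((c + k0 + Q - (W + (N - 1))) + 3 * (t + st) : ℕ) : ℤ) := by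
  omega

theorem idx4 {W N V c k0 t st j : ℕ} (h1 : 1 ≤ N) (h2 : W + (N + 1) ≤ 3 * V) (ht : 3 * t + c ≤ 2 * W)
    (hk : k0 = (N - 1 + c + 2 * W) % 3)
    (hj : j < 2 * N + 1) (hs : j = k0 + 3 * st) :
    (3 * V + k0 + W - (N - 1 + c)) / 3 - t + st < 2 * V + 1 := by
  have h3 : (3 * V + k0 + W - (N - 1 + c)) / 3 ≥ t := by omega
  omega

theorem idx5 {W N V c k0 t st j k' : ℕ} (h1 : 1 ≤ N) (h2 : W + (N + 1) ≤ 3 * V) (ht : 3 * t + c ≤ 2 * W)
    (hk' : k' = 3 * t + c) (hk : k0 = (N - 1 + c + 2 * W) % 3) (hs : j = k0 + 3 * st) :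
    (3 : ℤ) ∣ ((j : ℤ) - N + 1) - ((k' : ℤ) - W) ∧ (((j : ℤ) - N + 1) - ((k' : ℤ) - W)) / 3 =
      (((3 * V + k0 + W - (N - 1 + c)) / 3 - t + st : ℕ) : ℤ) - V := by
  obtain ⟨a, ha⟩ : ∃ a, 3 * V + k0 + W - (N - 1 + c) = 3 * a := ⟨(3 * V + k0 + W - (N - 1 + c)) / 3, by omega⟩
  have h3 : t ≤ a := by omega
  rw [ha]
  have e1 : 3 * a / 3 = a := by omega
  rw [e1]
  have e2 : ((j : ℤ) - N + 1) - ((k' : ℤ) - W) = 3 * ((a : ℤ) - t + st - V) := by omega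
  rw [e2]
  constructor
  · exact dvd_mul_right _ _
  · rw [Int.mul_ediv_cancel_left _ (by norm_num)]
    omega

theorem idx6 {W N V c k0 t : ℕ} (h1 : 1 ≤ N) (h2 : W + (N + 1) ≤ 3 * V) (ht : 3 * t + c ≤ 2 * W) :
    t ≤ (3 * V + k0 + W - (N - 1 + c)) / 3 := by
  omega

theorem idx7 {W N c k0 j k' t : ℕ} (hN : 1 ≤ N) (hc : k' = 3 * t + c) (hk : k0 = (N - 1 + c + 2 * W) % 3)
    (h : j < k0 ∨ (j - k0) % 3 ≠ 0) : ¬ (3 : ℤ) ∣ ((j : ℤ) - N + 1) - ((k' : ℤ) - W) := by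
  omega

/-- **the digits of the rows** -/
theorem row_digits {b s : ℕ} {K : KD} {e : ℕ} {F : List FP} {Q : ℕ} {ph : ℝ} (T : Tab3 b s K e F Q ph)
    {V P W N : ℕ} (hS : okS b s V P W N Q e K = true) (hV : okV V F = true) (k' : ℕ) (hk' : k' ≤ 2 * W) :
    ((cls b V P W N Q (cbL b V (Nat.pow (Nat.pow 2 (Nat.succ b)) P) F) k').x < (2 ^ (b + 1)) ^ (len N) ∧
      (cls b V P W N Q (cbL b V (Nat.pow (Nat.pow 2 (Nat.succ b)) P) F) k').y < (2 ^ (b + 1)) ^ (len N)) ∧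
    ∀ j, j < len N →
      ‖(((dg b j (cls b V P W N Q (cbL b V (Nat.pow (Nat.pow 2 (Nat.succ b)) P) F) k').x : ℂ) - 2 ^ b) +
        Complex.I * ((dg b j (cls b V P W N Q (cbL b V (Nat.pow (Nat.pow 2 (Nat.succ b)) P) F) k').y : ℂ) - 2 ^ b)) -
        (2 ^ s : ℂ) * kk ((K.dn : ℝ) / K.D) ((K.kn : ℝ) / K.D) ph ((k' : ℤ) - W) ((j : ℤ) - N + 1)‖ ≤ e := by
  unfold okS at hS
  simp only [Bool.and_eq_true] at hS
  obtain ⟨⟨⟨o1, o2⟩, o3, o4, o5⟩, -⟩ := hS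
  have o1 : 1 ≤ N := Nat.le_of_ble_eq_true o1
  have o2 : W + (N + 1) ≤ Q := Nat.le_of_ble_eq_true o2
  have o3 : W + (N + 1) ≤ 3 * V := Nat.le_of_ble_eq_true o3
  have o4 : len V ≤ P := Nat.le_of_ble_eq_true o4
  have o5 : len N + 3 ≤ P := Nat.le_of_ble_eq_true o5
  have lV : len V = 2 * V + 1 := rfl
  have lN : len N = 2 * N + 1 := rfl
  set H := Nat.pow (Nat.pow 2 (Nat.succ b)) P with hH
  set G := cbL b V H F with hG
  -- the class
  set c := k' % 3 with hc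
  set t := k' / 3 with ht
  set k0 := kc W N c with hk0
  have hk0e : k0 = (N - 1 + c + 2 * W) % 3 := rfl
  have hc3 : c < 3 := Nat.mod_lt _ (by norm_num)
  have hk3 : k0 < 3 := Nat.mod_lt _ (by norm_num)
  have htk : k' = 3 * t + c := by omega
  have htc : 3 * t + c ≤ 2 * W := by omega
  have ht1 : t < (2 * W - c) / 3 + 1 := by omega
  clear_value c t
  have hz : cls b V P W N Q G k' = ntF (rowC b V P W N Q G c) t := by
    rw [ht, hc]
    exact tb_eq (fun c => rowC b V P W N Q G c) k'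
  have hrow : rowC b V P W N Q G c = rwC (b + 1) ((2 ^ (b + 1) - 1) * ((2 ^ (b + 1)) ^ P + 1))
      ((2 ^ b * 2 ^ (b + 1) + 2 ^ b * (2 ^ (b + 1)) ^ 2) * ((2 ^ (b + 1)) ^ P + 1)) ((2 ^ (b + 1)) ^ 3)
      (of b k0) ((2 ^ (b + 1)) ^ k0) ((2 ^ (b + 1)) ^ P) ((2 ^ (b + 1)) ^ (len N)) N ((2 * N - k0) / 3 + 1)
      ((2 * W - c) / 3 + 1) ((b + 1) * ((3 * V + k0 + W - (N - 1 + c)) / 3))
      (th3 (G.drop (c + k0 + Q - (W + (N - 1))))) := rfl
  clear_value k0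
  rw [hz, hrow, ntF_rwC _ _ _ _ _ _ _ _ _ _ _ _ _ _ ht1 (idx6 o1 o3 htc)]
  have hFl := T.ln
  have hGl : G.length = 2 * Q + 1 := by rw [hG, cbL_length, hFl]
  have hLl : (2 * N - k0) / 3 + 1 ≤ ((th3 (G.drop (c + k0 + Q - (W + (N - 1))))).drop t).length := by
    rw [List.length_drop, th3_length, List.length_drop, hGl]
    exact idx1 o1 o2 hc3 hk3 htc
  obtain ⟨w, dgs⟩ := spl_dg b P N k0 ((2 * N - k0) / 3 + 1) ((3 * V + k0 + W - (N - 1 + c)) / 3 - t)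
    ((th3 (G.drop (c + k0 + Q - (W + (N - 1))))).drop t) (by omega) hLl (by omega) (by omega) _ rfl
  refine ⟨w, fun j hj => ?_⟩
  obtain ⟨dx, dy⟩ := dgs j hj
  rw [dx, dy]
  have he0 : (0 : ℝ) ≤ e := Nat.cast_nonneg e
  by_cases hc1 : j < k0
  · rw [if_pos hc1, if_pos hc1, kk_zero _ _ _ (idx7 o1 htk hk0e (Or.inl hc1))]
    push_cast
    simp
  rw [if_neg hc1, if_neg hc1]
  by_cases h3 : (j - k0) % 3 = 0
  swap
  · unfold DG
    rw [if_neg h3, if_neg h3, kk_zero _ _ _ (idx7 o1 htk hk0e (Or.inr h3))]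
    push_cast
    simp
  unfold DG
  rw [if_pos h3, if_pos h3]
  set st := (j - k0) / 3 with hst
  have hjs : j = k0 + 3 * st := by omega
  have hj' : j < 2 * N + 1 := hj
  clear_value st
  have hi : (c + k0 + Q - (W + (N - 1))) + 3 * (t + st) < F.length := by
    rw [hFl]
    exact idx2 o1 o2 htc hj' hjs
  have hidx : ((th3 (G.drop (c + k0 + Q - (W + (N - 1))))).drop t).getD st 0 =
      cb b V H (ntF F ((c + k0 + Q - (W + (N - 1))) + 3 * (t + st))) := by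
    rw [getD_drop, th3_getD, getD_drop, hG, cbL_getD _ _ _ _ _ hi]
  rw [hidx]
  have hq := idx3 (W := W) (N := N) (Q := Q) (c := c) (k0 := k0) (t := t) (st := st) (j := j) (k' := k') o1 o2 htk hjs
  rw [hFl] at hi
  set i := (c + k0 + Q - (W + (N - 1))) + 3 * (t + st) with hi'
  clear_value i
  have hqa : |((k' : ℤ) - W) + ((j : ℤ) - N + 1)| ≤ (Q : ℤ) := by
    rw [abs_le]; constructor <;> omega
  have hwf := T.wf _ hqa
  have hqn : ((((k' : ℤ) - W) + ((j : ℤ) - N + 1)) + Q).toNat = i := by omega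
  rw [hqn] at hwf
  have hNV : (ntF F i).N ≤ V := okV_sound V F i hV (by rw [hFl]; exact hi)
  have hpl : (3 * V + k0 + W - (N - 1 + c)) / 3 - t + st < len V := idx4 o1 o3 htc hk0e hj' hjs
  obtain ⟨c1, c2⟩ := cb_dg b V P (ntF F i) hNV hwf o4 hpl
  have hHe : H = (2 ^ (b + 1)) ^ P := rfl
  rw [hHe, c1, c2]
  obtain ⟨d1, d2⟩ := idx5 (V := V) o1 o3 htc htk hk0e hjs
  exact ent3 T (m := (k' : ℤ) - W) (n := (j : ℤ) - N + 1) hqa d1 hq.symm d2

/-- **the table of `gB`** -/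
theorem tabB {b s : ℕ} {K : KD} {e : ℕ} {F : List FP} {Q : ℕ} {ph : ℝ} (T : Tab3 b s K e F Q ph)
    {V P W N : ℕ} (hS : okS b s V P W N Q e K = true) (hV : okV V F = true) :
    Helper85.NS.TabH b (s + 1) N W e (cls b V P W N Q (cbL b V (Nat.pow (Nat.pow 2 (Nat.succ b)) P) F))
      (Helper85.NS.kaB ((K.dn : ℝ) / K.D) ((K.kn : ℝ) / K.D) ph) := by
  have hS' := hS
  unfold okS at hS'
  simp only [Bool.and_eq_true] at hS'
  obtain ⟨-, ⟨p1, p2⟩, p3, p4, p5⟩ := hS'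
  have p1 : 3 * e ≤ 2 ^ (s + 1) := Nat.le_of_ble_eq_true p1
  have p2 : 1 ≤ s := Nat.le_of_ble_eq_true p2
  have p3 : 2 * s + 9 ≤ b := Nat.le_of_ble_eq_true p3
  have p4 : 1 ≤ K.D := Nat.le_of_ble_eq_true p4
  have p5 : K.dn.natAbs ≤ 2 * K.D := Nat.le_of_ble_eq_true p5
  refine ⟨fun k hk => (row_digits T hS hV k hk).1, fun k hk j hj => ?_, fun m n => ?_, p1, by omega, by omega⟩
  · have h := (row_digits T hS hV k hk).2 j hj
    have e1 : (2 ^ (s + 1) : ℂ) * Helper85.NS.kaB ((K.dn : ℝ) / K.D) ((K.kn : ℝ) / K.D) ph ((k : ℤ) - W) ((j : ℤ) - N) =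
        (2 ^ s : ℂ) * kk ((K.dn : ℝ) / K.D) ((K.kn : ℝ) / K.D) ph ((k : ℤ) - W) ((j : ℤ) - N + 1) := by
      unfold Helper85.NS.kaB
      rw [pow_succ]
      ring
    rw [e1]
    have e2 : ∀ X : ℕ, ((Helper96.SH.dz b j X : ℤ) : ℂ) = (dg b j X : ℂ) - 2 ^ b := by
      intro X
      unfold Helper96.SH.dz
      push_cast
      rfl
    rw [e2, e2]
    exact h
  · unfold Helper85.NS.kaB
    rw [norm_mul]
    have hd : |(K.dn : ℝ) / K.D| ≤ 2 := by
      have hD : (0 : ℝ) < K.D := by exact_mod_cast p4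
      rw [abs_div, abs_of_pos hD, div_le_iff₀ hD]
      have : ((K.dn.natAbs : ℕ) : ℝ) ≤ ((2 * K.D : ℕ) : ℝ) := by exact_mod_cast p5
      rw [Nat.cast_natAbs, Int.cast_abs] at this
      push_cast at this
      exact this
    have h4 := kk_norm ((K.dn : ℝ) / K.D) ((K.kn : ℝ) / K.D) ph hd m (n + 1)
    have : ‖(1 / 2 : ℂ)‖ = 1 / 2 := by simp
    rw [this]
    linarith


/-- `d -> - d` -/
def ngK (K : KD) : KD := ⟨Int.neg K.dn, K.kn, K.D, K.c, K.sn, K.h⟩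

/-- **the table of `gA`** -/
theorem tabA {b s : ℕ} {K : KD} {e : ℕ} {F : List FP} {Q : ℕ} {ph : ℝ} (T : Tab3 b s (ngK K) e F Q ph)
    {V P W N : ℕ} (hS : okS b s V P W N Q e (ngK K) = true) (hV : okV V F = true) :
    Helper85.NS.TabH b (s + 1) N W e (cls b V P W N Q (cbL b V (Nat.pow (Nat.pow 2 (Nat.succ b)) P) F))
      (Helper85.NS.kaA ((K.dn : ℝ) / K.D) ((K.kn : ℝ) / K.D) ph) := by
  have h := tabB T hS hV
  have e1 : Helper85.NS.kaA ((K.dn : ℝ) / K.D) ((K.kn : ℝ) / K.D) ph =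
      Helper85.NS.kaB (((ngK K).dn : ℝ) / (ngK K).D) (((ngK K).kn : ℝ) / (ngK K).D) ph := by
    funext m n
    rw [kaA_negd]
    have : (((ngK K).dn : ℤ) : ℝ) = -(K.dn : ℝ) := by
      show ((-K.dn : ℤ) : ℝ) = _
      push_cast
      rfl
    rw [this, neg_div]
    rfl
  rw [e1]
  exact h

/-! ## All together -/

theorem symL_length (b : ℕ) (z : FP) : ∀ (l : List PF) (acc : List FP), (symL b z l acc).length = l.length + acc.length
  | [], acc => by simp [symL]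
  | p :: l, acc => by
    show (symL b z l (ngF b p.z :: acc)).length = l.length + 1 + acc.length
    rw [symL_length b z l, List.length_cons]
    ring

theorem zL_length : ∀ l : List PF, (zL l).length = l.length
  | [] => rfl
  | p :: l => by
    show (zL l).length + 1 = l.length + 1
    rw [zL_length l]

theorem getF_length (P : KQ) (K : KD) (e Q : ℕ) (ho : okTab2 P K e Q = true) : (getF P K).length = 2 * Q + 1 := by
  unfold okTab2 at ho
  rw [Bool.and_eq_true] at ho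
  obtain ⟨-, h3⟩ := ho
  cases hres : tabQ P K with
  | none => rw [hres] at h3; simp at h3
  | some res =>
    rw [hres] at h3
    have h3 : okL2 P K e Q (res.reverse.drop 1) = true := h3
    unfold okL2 at h3
    rw [Bool.and_eq_true, Bool.and_eq_true] at h3
    obtain ⟨-, h5, -⟩ := h3
    have h5 : (res.reverse.drop 1).length = Q := (nbeq _ _).1 h5
    have h6 : getP P K = posL P.b P.s 1 (res.reverse.drop 1) := by
      unfold getP
      rw [hres]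
    unfold getF allL
    rw [symL_length, List.length_cons, zL_length, h6, posL_length, h5]
    ring

/-- number of levels of the reversal -/
def mmV (V : ℕ) : ℕ := Nat.succ (Nat.log2 (len V))

/-- the floored list -/
def getH (P : KQ) (K : KD) (t V : ℕ) : List FP := flL P.b t (getG P K (mmV V))

/-- the table as a function of the shifted row index -/
def tH (P : KQ) (K : KD) (t V PP W N Q : ℕ) : ℕ → FP :=
  cls P.b V PP W N Q (cbL P.b V (Nat.pow (Nat.pow 2 (Nat.succ P.b)) PP) (getH P K t V))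

/-- the check: `e0` = error of the list at the scale `2 ^ P.s`, `s = P.s - t` -/
def okH (P : KQ) (K : KD) (t s V PP W N Q e0 e : ℕ) : Bool :=
  okTab3 P K (mmV V) e0 Q && (Nat.beq P.s (Nat.add s t) && (Nat.ble t P.b &&
    (Nat.ble (Nat.add (Nat.div e0 (Nat.pow 2 t)) 3) e && (okS P.b s V PP W N Q e K && okV V (getH P K t V)))))

theorem Tab3.mono {b s : ℕ} {K : KD} {e e' : ℕ} {F : List FP} {Q : ℕ} {ph : ℝ} (T : Tab3 b s K e F Q ph) (h : e ≤ e') :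
    Tab3 b s K e' F Q ph :=
  ⟨T.ln, T.wf, fun q hq u v => (T.er q hq u v).trans (by exact_mod_cast h)⟩

theorem okH_sound {P : KQ} {K : KD} {t s V PP W N Q e0 e : ℕ} {ph : ℝ}
    (hph : ee ph = -(((K.c : ℂ) + Complex.I * K.sn) / K.h)) (ho : okH P K t s V PP W N Q e0 e = true) :
    Tab3 P.b s K e (getH P K t V) Q ph ∧ okS P.b s V PP W N Q e K = true ∧ okV V (getH P K t V) = true := by
  unfold okH at ho
  simp only [Bool.and_eq_true] at ho
  obtain ⟨h1, h2, h3, h4, h5, h6⟩ := ho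
  have h2 : P.s = s + t := (nbeq _ _).1 h2
  have h3 : t ≤ P.b := Nat.le_of_ble_eq_true h3
  have h4 : e0 / 2 ^ t + 3 ≤ e := Nat.le_of_ble_eq_true h4
  obtain ⟨h1, h7⟩ := okTab3_sound h1
  have T2 := okTab2_sound P K e0 Q ph hph h1
  rw [h2] at T2
  have T3 := ((Tab2.to3 T2 (getF_length P K e0 Q h1)).floor h3).mono h4
  rw [← h7] at T3
  exact ⟨T3, h5, h6⟩

/-- **table of `gB`**: `T = tH P K t V PP W N Q` -/
theorem TabH_B {P : KQ} {K : KD} {t s V PP W N Q e0 e : ℕ} {ph : ℝ}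
    (hph : ee ph = -(((K.c : ℂ) + Complex.I * K.sn) / K.h)) (ho : okH P K t s V PP W N Q e0 e = true) :
    Helper85.NS.TabH P.b (s + 1) N W e (tH P K t V PP W N Q)
      (Helper85.NS.kaB ((K.dn : ℝ) / K.D) ((K.kn : ℝ) / K.D) ph) := by
  obtain ⟨T, h1, h2⟩ := okH_sound hph ho
  exact tabB T h1 h2

/-- **table of `gA`**: `T = tH P (ngK K) t V PP W N Q` -/
theorem TabH_A {P : KQ} {K : KD} {t s V PP W N Q e0 e : ℕ} {ph : ℝ}
    (hph : ee ph = -(((K.c : ℂ) + Complex.I * K.sn) / K.h)) (ho : okH P (ngK K) t s V PP W N Q e0 e = true) :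
    Helper85.NS.TabH P.b (s + 1) N W e (tH P (ngK K) t V PP W N Q)
      (Helper85.NS.kaA ((K.dn : ℝ) / K.D) ((K.kn : ℝ) / K.D) ph) := by
  obtain ⟨T, h1, h2⟩ := okH_sound (K := ngK K) hph ho
  exact tabA T h1 h2

end Pool.Agent.Helper31.TabF
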